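import Mathlib
import Pool.Agent.H.MP_0479e2_co.Cover

set_option autoImplicit false

namespace Pool.Agent.Results.MP_0479e2_co.Bound

open Pool.Agent.H.MP_0479e2_co

theorem aux {V : Type} [Fintype V] [DecidableEq V] (G : SimpleGraph V) [DecidableRel G.Adj]
    (X Y : Finset V) (hb : G.IsBipartiteWith X Y) (hiso : ∀ v, ∃ w, G.Adj v w)
    (hn : X.card + Y.card = Fintype.card V) (g s t : ℕ) (hg : 1 ≤ g) (hst : 2 * g + 1 ≤ s + t)
    (hts : t ≤ s) (ht : 1 ≤ t) (hs' : ∀ j < s, ¬ Dom G X Y j) (ht' : ∀ j < t, ¬ Dom G Y X j) :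
    4 * (G.edgeFinset.card : ℤ) ≤ ((Fintype.card V : ℤ) - (2 * g + 1 : ℕ)) *
      ((Fintype.card V : ℤ) - (2 * g + 1 : ℕ) + 4) + 2 * (2 * g + 1 : ℕ) - 2 := by
  obtain ⟨c, k, h1, h2, h3, h4⟩ : ∃ c k : ℕ, c + k + 1 = 2 * g ∧ c + 1 ≤ k ∧ k < s ∧ c < t :=
    ⟨min t g - 1, 2 * g - min t g, by omega, by omega, by omega, by omega⟩
  have h := side G X Y hb hiso k c h2 (hs' k h3) (ht' c h4)
  rw [← hn]
  push_cast
  zify at h1 h2
  have e : (2 * (g : ℤ) + 1) = c + k + 2 := by linarith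
  rw [e]
  nlinarith [sq_nonneg (((X.card : ℤ) - c) - ((Y.card : ℤ) - k))]

theorem dom_ex {V : Type} [Fintype V] [DecidableEq V] (G : SimpleGraph V)
    (X Y : Finset V) (hb : G.IsBipartiteWith X Y) (hiso : ∀ v, ∃ w, G.Adj v w) :
    ∃ j, Dom G X Y j :=
  ⟨X.card, X, subset_rfl, le_rfl, fun y hy => by
    obtain ⟨w, hw⟩ := hiso y
    exact ⟨w, hb.symm.mem_of_mem_adj hy hw, hw⟩⟩

theorem result {V : Type} [Fintype V] [DecidableEq V] (G : SimpleGraph V) [DecidableRel G.Adj]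
    (hb : G.IsBipartite) (hiso : ∀ v, ∃ w, G.Adj v w) (γ : ℕ)
    (hγ : IsLeast {k | ∃ S : Finset V, S.card = k ∧ ∀ v, ∃ u ∈ S, G.Adj v u} γ)
    (hodd : Odd γ) (h3 : 3 ≤ γ) :
    (G.edgeFinset.card : ℤ) ≤
      ⌊(1 / 4 : ℚ) * (((Fintype.card V : ℚ) - γ) * ((Fintype.card V : ℚ) - γ + 4) + 2 * γ - 2)⌋ := by
  classical
  obtain ⟨g, rfl⟩ := hodd
  obtain ⟨C⟩ := hb
  set X := Finset.univ.filter fun v => C v = 0 with hX
  set Y := Finset.univ.filter fun v => ¬ C v = 0 with hY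
  have hb : G.IsBipartiteWith X Y := by
    refine ⟨?_, fun v w hvw => ?_⟩
    · rw [Finset.disjoint_coe]
      exact Finset.disjoint_filter_filter_not _ _ _
    · have := C.valid hvw
      simp only [hX, hY, Finset.coe_filter, Finset.mem_univ, true_and, Set.mem_ofPred_eq]
      omega
  have hn : X.card + Y.card = Fintype.card V := Finset.card_filter_add_card_filter_not _
  have hXY : ∀ v, v ∈ X ∨ v ∈ Y := fun v => by
    simp only [hX, hY, Finset.mem_filter, Finset.mem_univ, true_and]; exact em _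
  have e1 := dom_ex G X Y hb hiso
  have e2 := dom_ex G Y X hb.symm hiso
  obtain ⟨S, -, hS1, hS2⟩ := Nat.find_spec e1
  obtain ⟨T, -, hT1, hT2⟩ := Nat.find_spec e2
  have hle : 2 * g + 1 ≤ (S ∪ T).card := hγ.2 ⟨S ∪ T, rfl, fun v => by
    rcases hXY v with h | h
    · obtain ⟨u, hu, hu'⟩ := hT2 v h
      exact ⟨u, Finset.mem_union_right _ hu, hu'⟩
    · obtain ⟨u, hu, hu'⟩ := hS2 v h
      exact ⟨u, Finset.mem_union_left _ hu, hu'⟩⟩
  have hle2 := Finset.card_union_le S T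
  obtain ⟨v, -⟩ : (S ∪ T).Nonempty := Finset.card_pos.1 (by omega)
  obtain ⟨w, hw⟩ := hiso v
  have hne : (∃ x, x ∈ X) ∧ ∃ y, y ∈ Y := by
    rcases hb.mem_of_adj hw with h | h
    · exact ⟨⟨v, h.1⟩, w, h.2⟩
    · exact ⟨⟨w, h.2⟩, v, h.1⟩
  have hs1 : 1 ≤ Nat.find e1 := by
    obtain ⟨y, hy⟩ := hne.2
    obtain ⟨u, hu, -⟩ := hS2 y hy
    exact le_trans (Finset.card_pos.2 ⟨u, hu⟩) hS1
  have ht1 : 1 ≤ Nat.find e2 := by
    obtain ⟨y, hy⟩ := hne.1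
    obtain ⟨u, hu, -⟩ := hT2 y hy
    exact le_trans (Finset.card_pos.2 ⟨u, hu⟩) hT1
  have key : 4 * (G.edgeFinset.card : ℤ) ≤ ((Fintype.card V : ℤ) - (2 * g + 1 : ℕ)) *
      ((Fintype.card V : ℤ) - (2 * g + 1 : ℕ) + 4) + 2 * (2 * g + 1 : ℕ) - 2 := by
    rcases le_total (Nat.find e2) (Nat.find e1) with h | h
    · exact aux G X Y hb hiso hn g _ _ (by omega) (by omega) h ht1
        (fun j hj => Nat.find_min e1 hj) (fun j hj => Nat.find_min e2 hj)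
    · exact aux G Y X hb.symm hiso (by omega) g _ _ (by omega) (by omega) h hs1
        (fun j hj => Nat.find_min e2 hj) (fun j hj => Nat.find_min e1 hj)
  rw [Int.le_floor]
  have key' : (4 * (G.edgeFinset.card : ℚ)) ≤ ((Fintype.card V : ℚ) - (2 * g + 1 : ℕ)) *
      ((Fintype.card V : ℚ) - (2 * g + 1 : ℕ) + 4) + 2 * (2 * g + 1 : ℕ) - 2 := by
    exact_mod_cast key
  push_cast at key' ⊢
  linarith

end Pool.Agent.Results.MP_0479e2_co.Bound
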